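import Pool.Agent.R280.XLat

/-!
# Finite `ℓ_∞`-sums of projective Banach lattices (MP_2139d9_an, Q1: no)

The Banach lattices `ℝ` and `ℓ_1` are projective and have topological order units. Let `X` be the
space `c ⊕ c_0` with the norm `sup_n (|x_n| + |y_n|)` and let `J` be its closed ideal `c_0 ⊕ 0`, so
that `X / J = ℝ ⊕ c_0` with the norm `max (|a|, ‖y‖_∞)`. The inclusion `ℝ ⊕_∞ ℓ_1 → ℝ ⊕_∞ c_0` has norm
`1`, but each lift of it to a lattice homomorphism into `X` has norm at least `2`. So `ℝ ⊕_∞ ℓ_1` is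
not projective.
-/

set_option autoImplicit false

open Pool.Agent.R280.BLat Set Topology Filter

universe u v

namespace Pool.Agent.Results.MP_2139d9_an.SumNotProjective

/-- `E` has a topological order unit: an element `e ≥ 0` such that the only closed ideal of `E`
which contains `e` is `E`. -/
def HasTopologicalOrderUnit (E : Type u) [NormedAddCommGroup E] [NormedSpace ℝ E] [Lattice E] :
    Prop :=
  ∃ e : E, 0 ≤ e ∧ ∀ J : Submodule ℝ E, IsClosed (J : Set E) →
    (∀ a ∈ J, ∀ b : E, |b| ≤ |a| → b ∈ J) → e ∈ J → J = ⊤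

lemma real_unit : HasTopologicalOrderUnit ℝ := by
  refine ⟨1, zero_le_one, fun J _ _ h => ?_⟩
  rw [eq_top_iff]
  intro x _
  have := J.smul_mem x h
  rwa [smul_eq_mul, mul_one] at this

lemma ell1_unit : HasTopologicalOrderUnit ell1.Space := by
  have hL := isL1Type_ell1
  have hs : Summable fun n : ℕ => (1 / 2 : ℝ) ^ n • hL.e n := by
    refine Summable.of_norm_bounded (summable_geometric_of_lt_one (r := (1 / 2 : ℝ))
      (by norm_num) (by norm_num)) fun n => ?_
    rw [norm_smul, Real.norm_of_nonneg (by positivity)]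
    exact mul_le_of_le_one_right (by positivity) (hL.norm_e_le n)
  have hterm : ∀ n : ℕ, 0 ≤ (1 / 2 : ℝ) ^ n • hL.e n := fun n =>
    smul_nonneg (by positivity) (hL.e_nonneg n)
  refine ⟨∑' n : ℕ, (1 / 2 : ℝ) ^ n • hL.e n, tsum_nonneg hterm, fun J hJ hJi he => ?_⟩
  have h1 : ∀ n, hL.e n ∈ J := by
    intro n
    have h2 : (1 / 2 : ℝ) ^ n • hL.e n ≤ ∑' n : ℕ, (1 / 2 : ℝ) ^ n • hL.e n :=
      hs.le_tsum n fun j _ => hterm j
    have h3 : (1 / 2 : ℝ) ^ n • hL.e n ∈ J := by
      refine hJi _ he _ ?_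
      rw [abs_of_nonneg (hterm n), abs_of_nonneg (tsum_nonneg hterm)]
      exact h2
    have h4 := J.smul_mem ((2 : ℝ) ^ n) h3
    rw [smul_smul, ← mul_pow] at h4
    norm_num at h4
    exact h4
  rw [eq_top_iff]
  intro x _
  have h2 : Tendsto (fun N => ∑ n ∈ Finset.range N, x.fn n • hL.e n) atTop (𝓝 x) :=
    (hL.hasSum_unit x).tendsto_sum_nat
  exact hJ.mem_of_tendsto h2 (Eventually.of_forall fun N =>
    J.sum_mem fun n _ => J.smul_mem _ (h1 n))

/-- There are Banach lattices `P₁` and `P₂` which are projective and have topological order units,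
while their `ℓ_∞`-sum `P₁ × P₂` is not projective. -/
theorem result : ∃ (P₁ P₂ : Type) (_ : NormedAddCommGroup P₁) (_ : NormedSpace ℝ P₁)
    (_ : Lattice P₁) (_ : NormedAddCommGroup P₂) (_ : NormedSpace ℝ P₂) (_ : Lattice P₂),
    BanachLattice P₁ ∧ IsProjective.{0, v} P₁ ∧ HasTopologicalOrderUnit P₁ ∧
      BanachLattice P₂ ∧ IsProjective.{0, v} P₂ ∧ HasTopologicalOrderUnit P₂ ∧
      ¬ IsProjective.{0, 0} (P₁ × P₂) := by
  refine ⟨ℝ, ell1.Space, inferInstance, inferInstance, inferInstance, inferInstance,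
    inferInstance, inferInstance, inferInstance, isProjective_real, real_unit, inferInstance,
    isProjective_ell1, ell1_unit, fun h => ?_⟩
  obtain ⟨T', hT', hQ, hn⟩ := h (XL 0).Space YL.Space (Qk 0) isQuotient_Qk TT isLatHom_TT (1 / 2)
    (by norm_num)
  refine no_lift T' hT' hQ (hn.trans ?_)
  have := norm_TT_le
  linarith

end Pool.Agent.Results.MP_2139d9_an.SumNotProjective
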